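import Mathlib
import Pool.Agent.Mu673.Final
import Pool.Agent.Mu673.Answer

/-!
`μ(n) ≥ √n` for every `n`.
-/

set_option autoImplicit false

namespace Pool.Agent.Results.MP_61673a_co.SquareRoot

open Finset

/-- `A` contains no three elements `a < b < c` with `a + c = 2 b`. -/
def ThreeFree (A : Finset ℕ) : Prop :=
  ∀ a ∈ A, ∀ b ∈ A, ∀ c ∈ A, a < b → b < c → a + c ≠ 2 * b

/-- `A` is a maximal 3-free subset of `{1, …, n}`. -/
def IsMaximalThreeFree (n : ℕ) (A : Finset ℕ) : Prop :=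
  A ⊆ Finset.Icc 1 n ∧ ThreeFree A ∧
    ∀ x ∈ Finset.Icc 1 n, x ∉ A → ¬ ThreeFree (insert x A)

/-- `μ(n)`: the least size of a maximal 3-free subset of `{1, …, n}`. -/
noncomputable def mu (n : ℕ) : ℕ :=
  sInf {k | ∃ A : Finset ℕ, IsMaximalThreeFree n A ∧ A.card = k}

/-- THE FIRST QUESTION, answered in the affirmative. -/
theorem result (n : ℕ) : Real.sqrt n ≤ mu n :=
  (MP61673a.Answer.answer fun n A h => MP61673a.Fin.main n A h).1 n

end Pool.Agent.Results.MP_61673a_co.SquareRoot
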